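import Pool.Agent.Helper66.DC.Goals3

/-!
Packet DC3-CR (MP_628424_an): cross orthogonality of second derivatives.
-/

namespace Pool.Agent.Helper30.DC

open MvPolynomial Finset ComplexConjugate Pool.Agent.Helper69.DC Pool.Agent.Helper66.DC

/-- conjugated coefficients -/
noncomputable def cg {σ : Type*} (P : MvPolynomial σ ℂ) : MvPolynomial σ ℂ :=
  MvPolynomial.map (starRingEnd ℂ) P

theorem eval_cg {σ : Type*} (v : σ → ℂ) (P : MvPolynomial σ ℂ) :
    eval (fun i => conj (v i)) (cg P) = conj (eval v P) := by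
  unfold cg
  induction P using MvPolynomial.induction_on with
  | C a => simp
  | add p q hp hq => simp only [map_add, hp, hq]
  | mul_X p a h => simp only [map_mul, h, map_X, eval_X]

/-- derivative in the direction `u` -/
noncomputable def dd {m : ℕ} (u : Fin m → ℂ) : Derivation ℂ (MvPolynomial (Fin m) ℂ) (MvPolynomial (Fin m) ℂ) :=
  ∑ p, u p • pderiv p

noncomputable def dL {m : ℕ} (u : Fin m → ℂ) :
    Derivation ℂ (MvPolynomial (Fin m ⊕ Fin m) ℂ) (MvPolynomial (Fin m ⊕ Fin m) ℂ) :=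
  ∑ p, u p • pderiv (Sum.inl p)

noncomputable def dR {m : ℕ} (u : Fin m → ℂ) :
    Derivation ℂ (MvPolynomial (Fin m ⊕ Fin m) ℂ) (MvPolynomial (Fin m ⊕ Fin m) ℂ) :=
  ∑ p, u p • pderiv (Sum.inr p)

theorem sum_der {ι A : Type*} [CommRing A] [Algebra ℂ A] (s : Finset ι) (f : ι → Derivation ℂ A A) (P : A) :
    (∑ p ∈ s, f p) P = ∑ p ∈ s, f p P := by
  classical
  induction s using Finset.induction_on with
  | empty => simp
  | insert a s ha ih => rw [Finset.sum_insert ha, Finset.sum_insert ha, Derivation.add_apply, ih]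

theorem dd_apply {m : ℕ} (u : Fin m → ℂ) (P : MvPolynomial (Fin m) ℂ) :
    dd u P = ∑ p, u p • pderiv p P := by
  unfold dd
  rw [sum_der]
  rfl

theorem dL_apply {m : ℕ} (u : Fin m → ℂ) (P : MvPolynomial (Fin m ⊕ Fin m) ℂ) :
    dL u P = ∑ p, u p • pderiv (Sum.inl p) P := by
  unfold dL
  rw [sum_der]
  rfl

theorem dR_apply {m : ℕ} (u : Fin m → ℂ) (P : MvPolynomial (Fin m ⊕ Fin m) ℂ) :
    dR u P = ∑ p, u p • pderiv (Sum.inr p) P := by
  unfold dR
  rw [sum_der]
  rfl

theorem dL_inl {m : ℕ} (u : Fin m → ℂ) (P : MvPolynomial (Fin m) ℂ) :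
    dL u (rename Sum.inl P) = rename Sum.inl (dd u P) := by
  rw [dL_apply, dd_apply, map_sum]
  refine Finset.sum_congr rfl fun p _ => ?_
  rw [pderiv_rename Sum.inl_injective, map_smul]

theorem dR_inr {m : ℕ} (u : Fin m → ℂ) (P : MvPolynomial (Fin m) ℂ) :
    dR u (rename Sum.inr P) = rename Sum.inr (dd u P) := by
  rw [dR_apply, dd_apply, map_sum]
  refine Finset.sum_congr rfl fun p _ => ?_
  rw [pderiv_rename Sum.inr_injective, map_smul]

theorem dL_inr {m : ℕ} (u : Fin m → ℂ) (P : MvPolynomial (Fin m) ℂ) :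
    dL u (rename Sum.inr P) = 0 := by
  rw [dL_apply]
  refine Finset.sum_eq_zero fun p _ => ?_
  have : pderiv (Sum.inl p) (rename (Sum.inr : Fin m → Fin m ⊕ Fin m) P) = 0 := by
    induction P using MvPolynomial.induction_on with
    | C a => simp
    | add p q hp hq => simp only [map_add, hp, hq, add_zero]
    | mul_X p a h => simp [h]
  rw [this, smul_zero]

theorem dR_inl {m : ℕ} (u : Fin m → ℂ) (P : MvPolynomial (Fin m) ℂ) :
    dR u (rename Sum.inl P) = 0 := by
  rw [dR_apply]
  refine Finset.sum_eq_zero fun p _ => ?_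
  have : pderiv (Sum.inr p) (rename (Sum.inl : Fin m → Fin m ⊕ Fin m) P) = 0 := by
    induction P using MvPolynomial.induction_on with
    | C a => simp
    | add p q hp hq => simp only [map_add, hp, hq, add_zero]
    | mul_X p a h => simp [h]
  rw [this, smul_zero]

theorem d2_eq {m : ℕ} (u u' v : Fin m → ℂ) (P : MvPolynomial (Fin m) ℂ) :
    d2 u u' v P = eval v (dd u (dd u' P)) := by
  unfold d2
  rw [dd_apply, map_sum]
  refine Finset.sum_congr rfl fun p _ => ?_
  rw [smul_eval, dd_apply, map_sum, map_sum, Finset.mul_sum]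
  refine Finset.sum_congr rfl fun r _ => ?_
  rw [Derivation.map_smul, smul_eval]
  ring

theorem dd_cg {m : ℕ} (u : Fin m → ℂ) (P : MvPolynomial (Fin m) ℂ) :
    dd (fun i => conj (u i)) (cg P) = cg (dd u P) := by
  rw [dd_apply, dd_apply]
  unfold cg
  rw [map_sum]
  refine Finset.sum_congr rfl fun p _ => ?_
  rw [pderiv_map, smul_eq_C_mul, smul_eq_C_mul, map_mul, map_C]

theorem d2_cg {m : ℕ} (u u' v : Fin m → ℂ) (P : MvPolynomial (Fin m) ℂ) :
    eval (fun i => conj (v i)) (dd (fun i => conj (u i)) (dd (fun i => conj (u' i)) (cg P))) =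
      conj (d2 u u' v P) := by
  rw [dd_cg, dd_cg, eval_cg, d2_eq]

/-- the bilinear form `L` -/
noncomputable def LL (m : ℕ) : MvPolynomial (Fin m ⊕ Fin m) ℂ := ∑ i : Fin m, X (Sum.inl i) * X (Sum.inr i)

theorem eval_LL {m : ℕ} (y z : Fin m → ℂ) : eval (Sum.elim y z) (LL m) = ∑ l, y l * z l := by
  unfold LL
  simp

/-- the linear polynomial with coefficients `u` -/
noncomputable def lin {m : ℕ} (u : Fin m → ℂ) : MvPolynomial (Fin m) ℂ := ∑ l, C (u l) * X l

theorem eval_lin {m : ℕ} (u y : Fin m → ℂ) : eval y (lin u) = ∑ l, u l * y l := by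
  unfold lin
  simp

theorem dd_lin {m : ℕ} (u w : Fin m → ℂ) : dd u (lin w) = C (∑ l, u l * w l) := by
  rw [dd_apply, map_sum]
  unfold lin
  refine Finset.sum_congr rfl fun p _ => ?_
  rw [map_sum, Finset.sum_eq_single p]
  · simp [Derivation.leibniz, smul_eq_C_mul]
  · intro b _ hb
    simp [Derivation.leibniz, pderiv_X, hb]
  · simp

theorem dL_LL {m : ℕ} (u : Fin m → ℂ) : dL u (LL m) = rename Sum.inr (lin u) := by
  rw [dL_apply]
  unfold LL lin
  rw [map_sum]
  refine Finset.sum_congr rfl fun p _ => ?_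
  rw [map_sum, Finset.sum_eq_single p]
  · simp [Derivation.leibniz, smul_eq_C_mul, pderiv_X]
  · intro b _ hb
    simp [Derivation.leibniz, pderiv_X, hb]
  · simp

theorem dR_LL {m : ℕ} (u : Fin m → ℂ) : dR u (LL m) = rename Sum.inl (lin u) := by
  rw [dR_apply]
  unfold LL lin
  rw [map_sum]
  refine Finset.sum_congr rfl fun p _ => ?_
  rw [map_sum, Finset.sum_eq_single p]
  · simp [Derivation.leibniz, smul_eq_C_mul, pderiv_X]
  · intro b _ hb
    simp [Derivation.leibniz, pderiv_X, hb]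
  · simp

theorem eval_inl {m : ℕ} (y z : Fin m → ℂ) (P : MvPolynomial (Fin m) ℂ) :
    eval (Sum.elim y z) (rename Sum.inl P) = eval y P := by
  rw [eval_rename]
  rfl

theorem eval_inr {m : ℕ} (y z : Fin m → ℂ) (P : MvPolynomial (Fin m) ℂ) :
    eval (Sum.elim y z) (rename Sum.inr P) = eval z P := by
  rw [eval_rename]
  rfl

theorem der4 {m : ℕ} (u1 u2 u3 u4 : Fin m → ℂ) (P R : MvPolynomial (Fin m) ℂ) :
    dL u1 (dL u2 (dR u3 (dR u4 (rename Sum.inl P * rename Sum.inr R)))) =
      rename Sum.inl (dd u1 (dd u2 P)) * rename Sum.inr (dd u3 (dd u4 R)) := by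
  have h1 : ∀ (u : Fin m → ℂ) (P R : MvPolynomial (Fin m) ℂ),
      dR u (rename Sum.inl P * rename Sum.inr R) = rename Sum.inl P * rename Sum.inr (dd u R) := by
    intro u P R
    rw [Derivation.leibniz, dR_inl, dR_inr, smul_zero, add_zero, smul_eq_mul]
  have h2 : ∀ (u : Fin m → ℂ) (P R : MvPolynomial (Fin m) ℂ),
      dL u (rename Sum.inl P * rename Sum.inr R) = rename Sum.inl (dd u P) * rename Sum.inr R := by
    intro u P R
    rw [Derivation.leibniz, dL_inl, dL_inr, smul_zero, zero_add, smul_eq_mul, mul_comm]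
  rw [h1, h1, h2, h2]

theorem core {A : Type*} [CommRing A] [Algebra ℂ A] (E1 E2 E3 E4 : Derivation ℂ A A) (ε : A →+* ℂ) (L Q : A)
    (hL : ε L = 0) (h12 : E1 (E2 L) = 0) (h34 : E3 (E4 L) = 0)
    (a12 : ε (E1 L) * ε (E2 L) = 0) (a34 : ε (E3 L) * ε (E4 L) = 0)
    (b1 : ε (E2 L) * ε (E4 L) * ε (E1 (E3 L)) = 0) (b2 : ε (E2 L) * ε (E3 L) * ε (E1 (E4 L)) = 0)
    (b3 : ε (E1 L) * ε (E4 L) * ε (E2 (E3 L)) = 0) (b4 : ε (E1 L) * ε (E3 L) * ε (E2 (E4 L)) = 0) :
    ε (E1 (E2 (E3 (E4 (L ^ 3 * Q))))) = 0 := by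
  have e4 : E4 (L ^ 3 * Q) = L ^ 2 * (3 * E4 L * Q + L * E4 Q) := by
    rw [Derivation.leibniz, Derivation.leibniz_pow]
    simp only [smul_eq_mul, nsmul_eq_mul]
    push_cast
    ring
  set Q4 := 3 * E4 L * Q + L * E4 Q with hQ4
  have e3 : E3 (L ^ 2 * Q4) = L * (2 * E3 L * Q4 + L * E3 Q4) := by
    rw [Derivation.leibniz, Derivation.leibniz_pow]
    simp only [smul_eq_mul, nsmul_eq_mul]
    push_cast
    ring
  set Q34 := 2 * E3 L * Q4 + L * E3 Q4 with hQ34
  have e12 : E1 (E2 (L * Q34)) = E2 L * E1 Q34 + E1 L * E2 Q34 + L * E1 (E2 Q34) := by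
    rw [Derivation.leibniz, map_add, smul_eq_mul, smul_eq_mul, Derivation.leibniz, Derivation.leibniz, h12]
    simp only [smul_eq_mul]
    ring
  have hd4 : ∀ E : Derivation ℂ A A, ε (E Q4) = 3 * ε (E (E4 L)) * ε Q + 3 * ε (E4 L) * ε (E Q) + ε (E L) * ε (E4 Q) := by
    intro E
    have h : E Q4 = 3 * E (E4 L) * Q + 3 * E4 L * E Q + E L * E4 Q + L * E (E4 Q) := by
      have h3 : E (3 : A) = 0 := by
        have := E.map_natCast 3
        simpa using this
      rw [hQ4, map_add, Derivation.leibniz, Derivation.leibniz, Derivation.leibniz]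
      simp only [smul_eq_mul, h3]
      ring
    rw [h]
    simp only [map_add, map_mul, hL, map_ofNat]
    ring
  have hd34 : ∀ E : Derivation ℂ A A, ε (E Q34) =
      2 * ε (E (E3 L)) * (3 * ε (E4 L) * ε Q) + 2 * ε (E3 L) * ε (E Q4) + ε (E L) * ε (E3 Q4) := by
    intro E
    have h : E Q34 = 2 * E (E3 L) * Q4 + 2 * E3 L * E Q4 + E L * E3 Q4 + L * E (E3 Q4) := by
      have h3 : E (2 : A) = 0 := by
        have := E.map_natCast 2
        simpa using this
      rw [hQ34, map_add, Derivation.leibniz, Derivation.leibniz, Derivation.leibniz]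
      simp only [smul_eq_mul, h3]
      ring
    rw [h]
    simp only [map_add, map_mul, hL, map_ofNat]
    rw [hQ4]
    simp only [map_add, map_mul, hL, map_ofNat]
    ring
  rw [e4, e3, e12]
  simp only [map_add, map_mul, hL, zero_mul, add_zero]
  rw [hd34, hd34, hd4, hd4, hd4, h34, map_zero]
  linear_combination 6 * ε Q * b1 + 6 * ε Q * b2 + (6 * ε (E1 Q) * ε (E2 L) + 6 * ε (E2 Q) * ε (E1 L)) * a34 +
    6 * (ε (E3 L) * ε (E4 Q) + ε (E4 L) * ε (E3 Q)) * a12 + 6 * ε Q * b3 + 6 * ε Q * b4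

theorem h_cr (h : J_GS) : J_CR := by
  intro m N c c' hm hdiv e horth a i j b i' j' hab hij hij' hset
  set H : MvPolynomial (Fin m ⊕ Fin m) ℂ := rename Sum.inl (c 0) * rename Sum.inr (cg (c' 0)) -
    ∑ k : Fin N, rename Sum.inl (c k.succ) * rename Sum.inr (cg (c' k.succ)) with hH
  have hGS : LL m ^ 3 ∣ H := by
    refine h m 3 H hm fun ζ _ => ?_
    have h1 := hdiv (fun l => conj (ζ l))
    have h2 : lf (fun l => conj (ζ l)) = ∑ l : Fin m, C (ζ l) * X l := by
      unfold lf
      simp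
    have h3 : ∀ P : MvPolynomial (Fin m) ℂ,
        (aeval (Sum.elim X fun l => C (ζ l)) (rename Sum.inl P) : MvPolynomial (Fin m) ℂ) = P := by
      intro P
      rw [aeval_rename]
      have : (Sum.elim X fun l => C (ζ l)) ∘ (Sum.inl : Fin m → Fin m ⊕ Fin m) =
          (X : Fin m → MvPolynomial (Fin m) ℂ) := by
        funext l
        rfl
      rw [this, aeval_X_left_apply]
    have h4 : ∀ P : MvPolynomial (Fin m) ℂ,
        (aeval (Sum.elim X fun l => C (ζ l)) (rename Sum.inr (cg P)) : MvPolynomial (Fin m) ℂ) =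
          C (conj (eval (fun l => conj (ζ l)) P)) := by
      intro P
      rw [aeval_rename]
      have : (Sum.elim X fun l => C (ζ l)) ∘ (Sum.inr : Fin m → Fin m ⊕ Fin m) =
          (fun l => (C (ζ l) : MvPolynomial (Fin m) ℂ)) := by
        funext l
        rfl
      rw [this, ← eval_cg]
      have h5 : ∀ R : MvPolynomial (Fin m) ℂ,
          (aeval (fun l => (C (ζ l) : MvPolynomial (Fin m) ℂ)) R : MvPolynomial (Fin m) ℂ) = C (eval ζ R) := by
        intro R
        induction R using MvPolynomial.induction_on with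
        | C a => simp [algebraMap_eq]
        | add p q hp hq => simp only [map_add, hp, hq]
        | mul_X p a h => simp only [map_mul, h, aeval_X, eval_X]
      rw [h5]
      simp
    rw [h2] at h1
    have h6 : hfc c (ev c' fun l => conj (ζ l)) = aeval (Sum.elim X fun l => C (ζ l)) H := by
      rw [hH, map_sub, map_mul, map_sum, h3, h4]
      unfold hfc ev
      rw [mul_comm (c 0)]
      congr 1
      refine Finset.sum_congr rfl fun k _ => ?_
      rw [map_mul, h3, h4, mul_comm]
    rwa [h6] at h1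
  obtain ⟨Q, hQ⟩ := hGS
  set G : Fin m → Fin m → ℂ := fun p q => ∑ l, e p l * conj (e q l) with hG
  have hG0 : ∀ p q, p ≠ q → G p q = 0 := fun p q hpq => horth p q hpq
  set ε := eval (Sum.elim (e a) fun l => conj (e b l)) with hε
  have hleft : ∀ p, ε (dL (e p) (LL m)) = G p b := by
    intro p
    rw [dL_LL, hε, eval_inr, eval_lin]
  have hright : ∀ p, ε (dR (fun l => conj (e p l)) (LL m)) = G a p := by
    intro p
    rw [dR_LL, hε, eval_inl, eval_lin]
    exact Finset.sum_congr rfl fun l _ => mul_comm _ _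
  have hmix : ∀ p q, ε (dL (e p) (dR (fun l => conj (e q l)) (LL m))) = G p q := by
    intro p q
    rw [dR_LL, dL_inl, dd_lin, hε, eval_inl, eval_C]
  have hval : ε (dL (e i) (dL (e j) (dR (fun l => conj (e i' l)) (dR (fun l => conj (e j' l)) H)))) =
      hf (d2v (e i) (e j) (e a) c) (d2v (e i') (e j') (e b) c') := by
    rw [hH]
    simp only [map_sub, map_sum, der4, map_mul]
    unfold hf d2v
    rw [hε]
    simp only [eval_inl, eval_inr, d2_cg]
    simp only [← d2_eq]
  rw [← hval, hQ]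
  refine core (dL (e i)) (dL (e j)) (dR fun l => conj (e i' l)) (dR fun l => conj (e j' l)) ε (LL m) Q
    ?_ ?_ ?_ ?_ ?_ ?_ ?_ ?_ ?_
  · rw [hε, eval_LL]
    exact horth a b hab
  · rw [dL_LL, dL_inr]
  · rw [dR_LL, dR_inl]
  · rw [hleft, hleft]
    by_cases h1 : i = b
    · rw [hG0 j b (fun h2 => hij (h1.trans h2.symm)), mul_zero]
    · rw [hG0 i b h1, zero_mul]
  · rw [hright, hright]
    by_cases h1 : a = i'
    · rw [hG0 a j' (fun h2 => hij' (h1.symm.trans h2)), mul_zero]
    · rw [hG0 a i' h1, zero_mul]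
  · rw [hleft, hright, hmix]
    by_cases h1 : j = b
    · by_cases h2 : a = j'
      · by_cases h3 : i = i'
        · exfalso
          apply hset
          subst h1 h2 h3
          ext x
          simp only [mem_insert, mem_singleton]
          tauto
        · rw [hG0 i i' h3, mul_zero]
      · rw [hG0 a j' h2, mul_zero, zero_mul]
    · rw [hG0 j b h1, zero_mul, zero_mul]
  · rw [hleft, hright, hmix]
    by_cases h1 : j = b
    · by_cases h2 : a = i'
      · by_cases h3 : i = j'
        · exfalso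
          apply hset
          subst h1 h2 h3
          ext x
          simp only [mem_insert, mem_singleton]
          tauto
        · rw [hG0 i j' h3, mul_zero]
      · rw [hG0 a i' h2, mul_zero, zero_mul]
    · rw [hG0 j b h1, zero_mul, zero_mul]
  · rw [hleft, hright, hmix]
    by_cases h1 : i = b
    · by_cases h2 : a = j'
      · by_cases h3 : j = i'
        · exfalso
          apply hset
          subst h1 h2 h3
          ext x
          simp only [mem_insert, mem_singleton]
          tauto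
        · rw [hG0 j i' h3, mul_zero]
      · rw [hG0 a j' h2, mul_zero, zero_mul]
    · rw [hG0 i b h1, zero_mul, zero_mul]
  · rw [hleft, hright, hmix]
    by_cases h1 : i = b
    · by_cases h2 : a = i'
      · by_cases h3 : j = j'
        · exfalso
          apply hset
          subst h1 h2 h3
          ext x
          simp only [mem_insert, mem_singleton]
          tauto
        · rw [hG0 j j' h3, mul_zero]
      · rw [hG0 a i' h2, mul_zero, zero_mul]
    · rw [hG0 i b h1, zero_mul, zero_mul]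

end Pool.Agent.Helper30.DC
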