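import Pool.Agent.Helper66.DC.Goals4
import Pool.Agent.Helper30.DC.CR

/-!
Packet DC4-CROSS (MP_628424_an): cross orthogonality of derivatives.
-/

namespace Pool.Agent.Helper30.DC

open MvPolynomial Finset ComplexConjugate Pool.Agent.Helper69.DC Pool.Agent.Helper66.DC

section ideal

variable {σ : Type*}

/-- the polynomials without monomials dividing `M` -/
def II (M : σ →₀ ℕ) : Ideal (MvPolynomial σ ℂ) where
  carrier := {P | ∀ n ≤ M, coeff n P = 0}
  add_mem' := by
    intro P Q hP hQ n hn
    rw [coeff_add, hP n hn, hQ n hn, add_zero]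
  zero_mem' := by
    intro n _
    exact coeff_zero n
  smul_mem' := by
    classical
    intro R P hP n hn
    rw [smul_eq_mul, coeff_mul]
    refine Finset.sum_eq_zero fun x hx => ?_
    have hx' : x.1 + x.2 = n := by simpa using hx
    rw [hP x.2 ?_, mul_zero]
    refine le_trans ?_ hn
    rw [← hx']
    exact le_add_self

theorem mem_II {M : σ →₀ ℕ} {P : MvPolynomial σ ℂ} : P ∈ II M ↔ ∀ n ≤ M, coeff n P = 0 := Iff.rfl

theorem X_mem {M : σ →₀ ℕ} {j : σ} (h : M j = 0) : (X j : MvPolynomial σ ℂ) ∈ II M := by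
  classical
  rw [mem_II]
  intro n hn
  rw [coeff_X, if_neg]
  intro he
  have h1 := hn j
  rw [← he, Finsupp.single_eq_same, h] at h1
  exact absurd h1 (by norm_num)

theorem X_sq_mem {M : σ →₀ ℕ} {j : σ} (h : M j ≤ 1) : (X j ^ 2 : MvPolynomial σ ℂ) ∈ II M := by
  classical
  rw [mem_II]
  intro n hn
  rw [coeff_X_pow, if_neg]
  intro he
  have h1 := hn j
  rw [← he, Finsupp.single_eq_same] at h1
  omega

theorem sum_pow_zero {A ι : Type*} [CommRing A] [DecidableEq ι] (D : Finset ι) (s : ι → A)
    (h : ∀ i ∈ D, s i ^ 2 = 0) : (∑ i ∈ D, s i) ^ (D.card + 1) = 0 := by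
  induction D using Finset.induction_on with
  | empty => simp
  | insert i D hi ih =>
    rw [Finset.sum_insert hi, Finset.card_insert_of_notMem hi]
    have h1 := ih fun j hj => h j (Finset.mem_insert_of_mem hj)
    have h2 := h i (Finset.mem_insert_self i D)
    exact (Commute.all _ _).add_pow_eq_zero_of_add_le_succ_of_pow_eq_zero h2 h1 (by omega)

/-- the power of a sum of elements with squares in the ideal, few of them outside of the ideal -/
theorem pow_sum_mem {A ι : Type*} [CommRing A] [Fintype ι] [DecidableEq ι] (I : Ideal A) (D : Finset ι)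
    (t : ι → A) (h : ∀ i, t i ^ 2 ∈ I) (h' : ∀ i, i ∉ D → t i ∈ I) (E : ℕ) (hE : D.card < E) :
    (∑ i, t i) ^ E ∈ I := by
  rw [← Ideal.Quotient.eq_zero_iff_mem, map_pow, map_sum]
  have h1 : ∑ i, Ideal.Quotient.mk I (t i) = ∑ i ∈ D, Ideal.Quotient.mk I (t i) := by
    symm
    apply Finset.sum_subset (Finset.subset_univ D)
    intro i _ hi
    exact Ideal.Quotient.eq_zero_iff_mem.2 (h' i hi)
  rw [h1]
  have h2 := sum_pow_zero D (fun i => Ideal.Quotient.mk I (t i)) fun i _ => by
    rw [← map_pow]
    exact Ideal.Quotient.eq_zero_iff_mem.2 (h i)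
  exact pow_eq_zero_of_le (by omega) h2

end ideal

section coeffs

variable {α β : Type*}

theorem map_add_inj {u u' : α →₀ ℕ} {v v' : β →₀ ℕ} :
    u.mapDomain (Sum.inl : α → α ⊕ β) + v.mapDomain (Sum.inr : β → α ⊕ β) =
      u'.mapDomain Sum.inl + v'.mapDomain Sum.inr ↔ u = u' ∧ v = v' := by
  constructor
  · intro h
    constructor
    · ext x
      have h1 := DFunLike.congr_fun h (Sum.inl x)
      rw [Finsupp.add_apply, Finsupp.add_apply, Finsupp.mapDomain_apply Sum.inl_injective,
        Finsupp.mapDomain_apply Sum.inl_injective, Finsupp.mapDomain_of_notMem_range,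
        Finsupp.mapDomain_of_notMem_range] at h1
      · simpa using h1
      · simp
      · simp
    · ext x
      have h1 := DFunLike.congr_fun h (Sum.inr x)
      rw [Finsupp.add_apply, Finsupp.add_apply, Finsupp.mapDomain_apply Sum.inr_injective,
        Finsupp.mapDomain_apply Sum.inr_injective, Finsupp.mapDomain_of_notMem_range,
        Finsupp.mapDomain_of_notMem_range] at h1
      · simpa using h1
      · simp
      · simp
  · rintro ⟨rfl, rfl⟩
    rfl

theorem coeff_mul_rename (u : α →₀ ℕ) (v : β →₀ ℕ) (P : MvPolynomial α ℂ) (R : MvPolynomial β ℂ) :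
    coeff (u.mapDomain Sum.inl + v.mapDomain Sum.inr)
      (rename (Sum.inl : α → α ⊕ β) P * rename (Sum.inr : β → α ⊕ β) R) = coeff u P * coeff v R := by
  classical
  induction P using MvPolynomial.induction_on' with
  | add p q hp hq => rw [map_add, add_mul, coeff_add, hp, hq, coeff_add, add_mul]
  | monomial u' a =>
    induction R using MvPolynomial.induction_on' with
    | add p q hp hq => rw [map_add, mul_add, coeff_add, hp, hq, coeff_add, mul_add]
    | monomial v' b =>
      rw [rename_monomial, rename_monomial, monomial_mul, coeff_monomial, coeff_monomial,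
        coeff_monomial]
      by_cases h1 : u' = u
      · by_cases h2 : v' = v
        · rw [if_pos (map_add_inj.2 ⟨h1, h2⟩), if_pos h1, if_pos h2]
        · rw [if_neg (fun h => h2 (map_add_inj.1 h).2), if_neg h2, mul_zero]
      · rw [if_neg (fun h => h1 (map_add_inj.1 h).1), if_neg h1, zero_mul]

end coeffs

/-- the divisibility of the polynomial of the pairing, from `J_GS` -/
theorem hgs (h : J_GS) {m N : ℕ} (E : ℕ) (c c' : Fin (N + 1) → MvPolynomial (Fin m) ℂ) (hm : 2 ≤ m)
    (hdiv : ∀ v, (lf v) ^ E ∣ hfc c (ev c' v)) :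
    LL m ^ E ∣ rename Sum.inl (c 0) * rename Sum.inr (cg (c' 0)) -
      ∑ k : Fin N, rename Sum.inl (c k.succ) * rename Sum.inr (cg (c' k.succ)) := by
  set H : MvPolynomial (Fin m ⊕ Fin m) ℂ := rename Sum.inl (c 0) * rename Sum.inr (cg (c' 0)) -
    ∑ k : Fin N, rename Sum.inl (c k.succ) * rename Sum.inr (cg (c' k.succ)) with hH
  refine h m E H hm fun ζ _ => ?_
  have h1 := hdiv (fun l => conj (ζ l))
  have h2 : lf (fun l => conj (ζ l)) = ∑ l : Fin m, C (ζ l) * X l := by
    unfold lf
    simp
  have h3 : ∀ P : MvPolynomial (Fin m) ℂ,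
      (aeval (Sum.elim X fun l => C (ζ l)) (rename Sum.inl P) : MvPolynomial (Fin m) ℂ) = P := by
    intro P
    rw [aeval_rename]
    have : (Sum.elim X fun l => C (ζ l)) ∘ (Sum.inl : Fin m → Fin m ⊕ Fin m) =
        (X : Fin m → MvPolynomial (Fin m) ℂ) := by
      funext l
      rfl
    rw [this, aeval_X_left_apply]
  have h4 : ∀ P : MvPolynomial (Fin m) ℂ,
      (aeval (Sum.elim X fun l => C (ζ l)) (rename Sum.inr (cg P)) : MvPolynomial (Fin m) ℂ) =
        C (conj (eval (fun l => conj (ζ l)) P)) := by
    intro P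
    rw [aeval_rename]
    have : (Sum.elim X fun l => C (ζ l)) ∘ (Sum.inr : Fin m → Fin m ⊕ Fin m) =
        (fun l => (C (ζ l) : MvPolynomial (Fin m) ℂ)) := by
      funext l
      rfl
    rw [this, ← eval_cg]
    have h5 : ∀ R : MvPolynomial (Fin m) ℂ,
        (aeval (fun l => (C (ζ l) : MvPolynomial (Fin m) ℂ)) R : MvPolynomial (Fin m) ℂ) = C (eval ζ R) := by
      intro R
      induction R using MvPolynomial.induction_on with
      | C a => simp [algebraMap_eq]
      | add p q hp hq => simp only [map_add, hp, hq]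
      | mul_X p a h => simp only [map_mul, h, aeval_X, eval_X]
    rw [h5]
    simp
  rw [h2] at h1
  have h6 : hfc c (ev c' fun l => conj (ζ l)) = aeval (Sum.elim X fun l => C (ζ l)) H := by
    rw [hH, map_sub, map_mul, map_sum, h3, h4]
    unfold hfc ev
    rw [mul_comm (c 0)]
    congr 1
    refine Finset.sum_congr rfl fun k _ => ?_
    rw [map_mul, h3, h4, mul_comm]
  rwa [h6] at h1

/-- the substitution in one set of variables -/
noncomputable def AA {m : ℕ} (e : Fin m → Fin m → ℂ) (a : Fin m) :
    MvPolynomial (Fin m) ℂ →ₐ[ℂ] MvPolynomial (Fin m) ℂ :=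
  aeval (fun p => C (e a p) + ∑ i, C (e i p) * X i)

/-- the substitution in both sets of variables -/
noncomputable def PH {m : ℕ} (e : Fin m → Fin m → ℂ) (a b : Fin m) :
    MvPolynomial (Fin m ⊕ Fin m) ℂ →ₐ[ℂ] MvPolynomial (Fin m ⊕ Fin m) ℂ :=
  aeval (Sum.elim (fun p => C (e a p) + ∑ i, C (e i p) * X (Sum.inl i))
    (fun p => C (conj (e b p)) + ∑ i, C (conj (e i p)) * X (Sum.inr i)))

theorem PH_inl {m : ℕ} (e : Fin m → Fin m → ℂ) (a b : Fin m) (P : MvPolynomial (Fin m) ℂ) :
    PH e a b (rename Sum.inl P) = rename Sum.inl (AA e a P) := by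
  unfold PH AA
  induction P using MvPolynomial.induction_on with
  | C x => simp [algebraMap_eq]
  | add p q hp hq => simp only [map_add, hp, hq]
  | mul_X p i h =>
    rw [map_mul, map_mul, h, rename_X, aeval_X, Sum.elim_inl, map_mul, aeval_X, map_mul]
    congr 1
    simp

theorem PH_inr {m : ℕ} (e : Fin m → Fin m → ℂ) (a b : Fin m) (P : MvPolynomial (Fin m) ℂ) :
    PH e a b (rename Sum.inr (cg P)) = rename Sum.inr (cg (AA e b P)) := by
  unfold PH AA cg
  induction P using MvPolynomial.induction_on with
  | C x => simp [algebraMap_eq]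
  | add p q hp hq => simp only [map_add, hp, hq]
  | mul_X p i h =>
    rw [map_mul, map_mul, map_mul, h, map_X, rename_X, aeval_X, Sum.elim_inr, map_mul, aeval_X, map_mul,
      map_mul]
    congr 1
    simp

theorem PH_LL {m : ℕ} (e : Fin m → Fin m → ℂ)
    (horth : ∀ i j, i ≠ j → ∑ l, e i l * conj (e j l) = 0) (a b : Fin m) (hab : a ≠ b) :
    PH e a b (LL m) = ∑ i, C (∑ l, e i l * conj (e i l)) *
      (X (Sum.inl i) * X (Sum.inr i) + (if i = a then X (Sum.inr a) else 0) +
        (if i = b then X (Sum.inl b) else 0)) := by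
  set G : Fin m → Fin m → ℂ := fun i j => ∑ l, e i l * conj (e j l) with hG
  have hG0 : ∀ i j, i ≠ j → G i j = 0 := horth
  have h0 : PH e a b (LL m) = ∑ p, (C (e a p) + ∑ i, C (e i p) * X (Sum.inl i)) *
      (C (conj (e b p)) + ∑ i, C (conj (e i p)) * X (Sum.inr i)) := by
    unfold PH LL
    simp only [map_sum, map_mul, aeval_X, Sum.elim_inl, Sum.elim_inr]
  have h1 : PH e a b (LL m) = C (G a b) + ∑ j, C (G a j) * X (Sum.inr j) +
      ∑ i, C (G i b) * X (Sum.inl i) + ∑ i, ∑ j, C (G i j) * (X (Sum.inl i) * X (Sum.inr j)) := by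
    have h2 : ∀ p, (C (e a p) + ∑ i, C (e i p) * X (Sum.inl i)) *
        (C (conj (e b p)) + ∑ i, C (conj (e i p)) * X (Sum.inr i)) =
        (C (e a p) * C (conj (e b p)) : MvPolynomial (Fin m ⊕ Fin m) ℂ) +
        C (e a p) * ∑ i, C (conj (e i p)) * X (Sum.inr i) +
        (∑ i, C (e i p) * X (Sum.inl i)) * C (conj (e b p)) +
        (∑ i, C (e i p) * X (Sum.inl i)) * ∑ i, C (conj (e i p)) * X (Sum.inr i) := fun p => by ring
    rw [h0]
    simp only [h2]
    rw [Finset.sum_add_distrib, Finset.sum_add_distrib, Finset.sum_add_distrib]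
    congr 1
    · congr 1
      · congr 1
        · simp only [hG, map_sum, map_mul]
        · simp only [Finset.mul_sum]
          rw [Finset.sum_comm]
          refine Finset.sum_congr rfl fun j _ => ?_
          simp only [hG, map_sum, map_mul, Finset.sum_mul]
          exact Finset.sum_congr rfl fun p _ => by ring
      · simp only [Finset.sum_mul]
        rw [Finset.sum_comm]
        refine Finset.sum_congr rfl fun j _ => ?_
        simp only [hG, map_sum, map_mul, Finset.sum_mul]
        exact Finset.sum_congr rfl fun p _ => by ring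
    · simp only [Finset.sum_mul_sum]
      rw [Finset.sum_comm]
      refine Finset.sum_congr rfl fun i _ => ?_
      rw [Finset.sum_comm]
      refine Finset.sum_congr rfl fun j _ => ?_
      simp only [hG, map_sum, map_mul, Finset.sum_mul]
      exact Finset.sum_congr rfl fun p _ => by ring
  rw [h1, hG0 a b hab, map_zero, zero_add]
  have h3 : ∑ j, C (G a j) * X (Sum.inr j) = (C (G a a) * X (Sum.inr a) : MvPolynomial (Fin m ⊕ Fin m) ℂ) := by
    rw [Finset.sum_eq_single a]
    · intro j _ hj
      rw [hG0 a j (Ne.symm hj), map_zero, zero_mul]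
    · simp
  have h4 : ∑ i, C (G i b) * X (Sum.inl i) = (C (G b b) * X (Sum.inl b) : MvPolynomial (Fin m ⊕ Fin m) ℂ) := by
    rw [Finset.sum_eq_single b]
    · intro j _ hj
      rw [hG0 j b hj, map_zero, zero_mul]
    · simp
  have h5 : ∀ i, ∑ j, C (G i j) * (X (Sum.inl i) * X (Sum.inr j)) =
      (C (G i i) * (X (Sum.inl i) * X (Sum.inr i)) : MvPolynomial (Fin m ⊕ Fin m) ℂ) := by
    intro i
    rw [Finset.sum_eq_single i]
    · intro j _ hj
      rw [hG0 i j (Ne.symm hj), map_zero, zero_mul]
    · simp
  rw [h3, h4]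
  simp only [h5]
  simp only [mul_add, mul_ite, mul_zero, Finset.sum_add_distrib, Finset.sum_ite_eq', Finset.mem_univ,
    if_true]
  ring

/-- **Q_CROSS** -/
theorem h_cross (h : J_GS) : Q_CROSS := by
  classical
  intro m N E c c' hm hdiv e horth a b S T hab haS hbT hcard
  obtain ⟨Q, hQ⟩ := hgs h E c c' hm hdiv
  set u : Fin m →₀ ℕ := ∑ i ∈ S, Finsupp.single i 1 with hu
  set v : Fin m →₀ ℕ := ∑ i ∈ T, Finsupp.single i 1 with hv
  set M : (Fin m ⊕ Fin m) →₀ ℕ := u.mapDomain Sum.inl + v.mapDomain Sum.inr with hM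
  have hMl : ∀ i, M (Sum.inl i) = if i ∈ S then 1 else 0 := by
    intro i
    rw [hM, Finsupp.add_apply, Finsupp.mapDomain_apply Sum.inl_injective,
      Finsupp.mapDomain_of_notMem_range _ _ (by simp), add_zero, hu, Finsupp.finsetSum_apply]
    simp [Finsupp.single_apply]
  have hMr : ∀ i, M (Sum.inr i) = if i ∈ T then 1 else 0 := by
    intro i
    rw [hM, Finsupp.add_apply, Finsupp.mapDomain_apply Sum.inr_injective,
      Finsupp.mapDomain_of_notMem_range _ _ (by simp), zero_add, hv, Finsupp.finsetSum_apply]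
    simp [Finsupp.single_apply]
  have hval : hf (dv e a S c) (dv e b T c') = coeff M (PH e a b (rename Sum.inl (c 0) *
      rename Sum.inr (cg (c' 0)) - ∑ k : Fin N, rename Sum.inl (c k.succ) *
        rename Sum.inr (cg (c' k.succ)))) := by
    rw [map_sub, map_sum, coeff_sub, coeff_sum]
    have h1 : ∀ P R : MvPolynomial (Fin m) ℂ, coeff M (PH e a b (rename Sum.inl P *
        rename Sum.inr (cg R))) = dcf e a S P * conj (dcf e b T R) := by
      intro P R
      rw [map_mul, PH_inl, PH_inr, hM, coeff_mul_rename]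
      unfold dcf AA cg
      rw [coeff_map]
    simp only [h1]
    rfl
  rw [hval, hQ, map_mul, map_pow, mul_comm]
  have hmem : PH e a b Q * PH e a b (LL m) ^ E ∈ II M := by
    apply Ideal.mul_mem_left
    rw [PH_LL e horth a b hab]
    have hfac : ∀ i, (X (Sum.inl i) * X (Sum.inr i) + (if i = a then X (Sum.inr a) else 0) +
        (if i = b then X (Sum.inl b) else 0) : MvPolynomial (Fin m ⊕ Fin m) ℂ) =
        if i = a then X (Sum.inr a) * (X (Sum.inl a) + 1) else
        if i = b then X (Sum.inl b) * (X (Sum.inr b) + 1) else X (Sum.inl i) * X (Sum.inr i) := by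
      intro i
      by_cases h1 : i = a
      · subst h1
        rw [if_pos rfl, if_pos rfl, if_neg hab]
        ring
      · by_cases h2 : i = b
        · subst h2
          rw [if_neg h1, if_pos rfl, if_neg h1, if_pos rfl]
          ring
        · rw [if_neg h1, if_neg h2, if_neg h1, if_neg h2]
          ring
    simp only [hfac]
    refine pow_sum_mem (II M) (insert a S ∩ insert b T) _ ?_ ?_ E hcard
    · intro i
      rw [mul_pow]
      apply Ideal.mul_mem_left
      by_cases h1 : i = a
      · rw [if_pos h1, mul_pow]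
        apply Ideal.mul_mem_right
        apply X_sq_mem
        rw [hMr]
        split_ifs <;> omega
      · by_cases h2 : i = b
        · rw [if_neg h1, if_pos h2, mul_pow]
          apply Ideal.mul_mem_right
          apply X_sq_mem
          rw [hMl]
          split_ifs <;> omega
        · rw [if_neg h1, if_neg h2, mul_pow]
          apply Ideal.mul_mem_right
          apply X_sq_mem
          rw [hMl]
          split_ifs <;> omega
    · intro i hi
      apply Ideal.mul_mem_left
      rw [Finset.mem_inter, Finset.mem_insert, Finset.mem_insert] at hi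
      by_cases h1 : i = a
      · rw [if_pos h1]
        apply Ideal.mul_mem_right
        apply X_mem
        rw [hMr, if_neg]
        intro h3
        exact hi ⟨Or.inl h1, Or.inr (h1 ▸ h3)⟩
      · by_cases h2 : i = b
        · rw [if_neg h1, if_pos h2]
          apply Ideal.mul_mem_right
          apply X_mem
          rw [hMl, if_neg]
          intro h3
          exact hi ⟨Or.inr (h2 ▸ h3), Or.inl h2⟩
        · rw [if_neg h1, if_neg h2]
          by_cases h3 : i ∈ S
          · apply Ideal.mul_mem_left
            apply X_mem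
            rw [hMr, if_neg]
            intro h4
            exact hi ⟨Or.inr h3, Or.inr h4⟩
          · apply Ideal.mul_mem_right
            apply X_mem
            rw [hMl, if_neg h3]
  exact mem_II.1 hmem M le_rfl

end Pool.Agent.Helper30.DC
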